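import Pool.Agent.Helper59.HR.Spec

/-!
# HR: part CF
-/

set_option autoImplicit false

open MvPolynomial Pool.Agent.Helper59.LP

namespace Pool.Agent.H62.HR.CF

theorem main : S_CF := by
  intro J _ _ d v ξ σ hσ hI
  have hI' : LinearIndependent ℝ (fun j : σ => v j) := hI
  have hcard : Fintype.card σ = Module.finrank ℝ (Ve d) := by simp [hσ]
  have hspan := hI'.span_eq_top_of_card_eq_finrank' hcard
  have sumσ : ∀ g : J → ℝ, (∀ j, j ∉ σ → g j = 0) →
      ∑ j, g j • v j = ∑ j : σ, g j • v j := by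
    intro g hg
    rw [Finset.sum_coe_sort σ (fun j => g j • v j)]
    refine (Finset.sum_subset (Finset.subset_univ σ) fun j _ hj => ?_).symm
    rw [hg j hj, zero_smul]
  have hex : ∃ g : J → ℝ, (∀ j, j ∉ σ → g j = 0) ∧ ∑ j, g j • v j = ξ := by
    have h1 : ξ ∈ Submodule.span ℝ (Set.range (fun j : σ => v j)) := by
      rw [hspan]; trivial
    rw [Submodule.mem_span_range_iff_exists_fun] at h1
    obtain ⟨g, hg⟩ := h1
    refine ⟨fun j => if h : j ∈ σ then g ⟨j, h⟩ else 0, fun j hj => by simp [hj], ?_⟩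
    rw [sumσ _ (fun j hj => by simp [hj]), ← hg]
    refine Finset.sum_congr rfl fun j _ => ?_
    simp [j.2]
  have hcf : cf v ξ σ = Classical.choose hex := by
    unfold cf
    rw [dif_pos hex]
  have hcf2 := Classical.choose_spec hex
  rw [← hcf] at hcf2
  have huniq : ∀ g : J → ℝ, (∀ j, j ∉ σ → g j = 0) → ∑ j, g j • v j = ξ → g = cf v ξ σ := by
    intro g hg1 hg2
    have h2 : ∑ j : σ, (g j - cf v ξ σ j) • v j = 0 := by
      simp only [sub_smul, Finset.sum_sub_distrib]
      rw [← sumσ g hg1, ← sumσ (cf v ξ σ) hcf2.1, hg2, hcf2.2, sub_self]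
    have h3 := (Fintype.linearIndependent_iff.mp hI') (fun j => g j - cf v ξ σ j) h2
    funext j
    by_cases hj : j ∈ σ
    · have := h3 ⟨j, hj⟩
      simpa [sub_eq_zero] using this
    · rw [hg1 j hj, hcf2.1 j hj]
  -- the matrix
  set e := σ.equivFinOfCardEq hσ with he
  set A : Matrix (Fin d) (Fin d) ℝ := fun k => v (e.symm k) with hA
  have hrow : LinearIndependent ℝ (fun k => A k) := by
    have := hI'.comp e.symm e.symm.injective
    exact this
  have hU : IsUnit A := (Matrix.linearIndependent_rows_iff_isUnit).mp hrow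
  have hdet : IsUnit A.det := (Matrix.isUnit_iff_isUnit_det A).mp hU
  refine ⟨hcf2.1, hcf2.2, ?_, huniq, ?_⟩
  · unfold dv
    rw [dif_pos hσ]
    exact abs_pos.mpr hdet.ne_zero
  · intro c
    have hdt : ∀ (m : Ve d) (k : Fin d), dt m (v (e.symm k)) = A.mulVec m k := by
      intro m k
      unfold dt Matrix.mulVec dotProduct
      refine Finset.sum_congr rfl fun l _ => ?_
      rw [mul_comm]
    refine ⟨A⁻¹.mulVec (fun k => c (e.symm k)), ?_, ?_⟩
    · intro j hj
      have h4 := hdt (A⁻¹.mulVec (fun k => c (e.symm k))) (e ⟨j, hj⟩)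
      rw [Matrix.mulVec_mulVec, Matrix.mul_nonsing_inv A hdet, Matrix.one_mulVec] at h4
      simpa using h4
    · intro m hm
      have h5 : A.mulVec m = fun k => c (e.symm k) := by
        funext k
        rw [← hdt]
        exact hm _ (e.symm k).2
      rw [← h5, Matrix.mulVec_mulVec, Matrix.nonsing_inv_mul A hdet, Matrix.one_mulVec]

end Pool.Agent.H62.HR.CF
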