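import Pool.Agent.Helper59.HR.Spec

/-!
# HR: part HLW
-/

set_option autoImplicit false

open MvPolynomial Pool.Agent.Helper59.LP

namespace Pool.Agent.H62.HR.HLW

theorem main (hNF : S_NF) (hTRL : S_TRL) (hCRU : S_CRU) (hHLA : S_HLA) (hWAL : S_WAL) :
    S_HLW := by
  intro J _ _ d v ξ c Z F lam x₀ n S hGP hC hFe hac hFZ hFn hS1 hS2 hcard hVan hIH
  have hZc := hC.card
  have hSI : ∀ σ ∈ S, σ.card = d ∧ Ind v σ := fun σ hσ => ⟨hS1 σ hσ, hGP σ (hS1 σ hσ).le⟩
  obtain ⟨-, nf2, nf3⟩ := hNF J d v ξ S F hSI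
  set φ := fnS v ξ S F with hφ
  set c' : J → ℝ := fun j => c j - dt x₀ (v j) with hc'
  have cin : ∀ j ∈ Z, c' j = 0 := by
    intro j hj
    rw [← hac] at hj
    have := (Finset.mem_filter.mp hj).2
    simp only [hc']
    linarith
  have cout : ∀ j, j ∉ Z → 0 < c' j := by
    intro j hj
    have h1 : dt x₀ (v j) ≤ c j := hFe j
    have h2 : dt x₀ (v j) ≠ c j := by
      intro h
      apply hj
      rw [← hac]
      exact Finset.mem_filter.mpr ⟨Finset.mem_univ _, h⟩
    simp only [hc']
    exact sub_pos.mpr (lt_of_le_of_ne h1 h2)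
  have cnn : ∀ j, 0 ≤ c' j := by
    intro j
    by_cases h : j ∈ Z
    · rw [cin j h]
    · exact (cout j h).le
  rw [(hTRL J d v φ c x₀ n hVan).1]
  intro k hk a ha hab
  rcases Nat.lt_or_ge (2 * k) n with hk' | hk'
  · have hn1 : n - 1 + 1 = n := by omega
    have hX : ∀ j, j ∉ Z → ∀ b, b.IsHomogeneous (n - 1 - k) → φ (X j * (a * b)) = 0 := by
      intro j hj b hb
      refine hHLA J φ c' n k a cnn hk' ?_ ha hab j (cout j hj) b hb
      intro i hi
      have hi' : i ∉ Z := by
        intro h
        rw [cin i h] at hi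
        exact lt_irrefl _ hi
      obtain ⟨hV, hHR⟩ := hIH i hi' (n - 1) hn1
      have hiF : i ∉ F := fun h => hi' (hFZ h)
      rw [nf3 i hiF] at hV hHR
      exact ((hTRL J d v _ c x₀ (n - 1) hV).2 k (by omega)).mp (hHR k (by omega))
    set B : Finset J := (Z \ F).filter fun i => lam i < 0 with hB
    set A : Finset J := (pz Z lam) \ F with hA
    have hAB : A.card + B.card = n + 1 := by
      have h1 : A ∪ B = Z \ F := by
        ext i
        simp only [hA, hB, pz, Finset.mem_union, Finset.mem_sdiff, Finset.mem_filter]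
        constructor
        · rintro (⟨⟨h1, -⟩, h2⟩ | ⟨⟨h1, h2⟩, -⟩)
          · exact ⟨h1, h2⟩
          · exact ⟨h1, h2⟩
        · rintro ⟨h1, h2⟩
          rcases lt_or_gt_of_ne ((hC.supp i).mpr h1) with h | h
          · exact Or.inr ⟨⟨h1, h2⟩, h⟩
          · exact Or.inl ⟨⟨h1, h⟩, h2⟩
      have h2 : Disjoint A B := by
        rw [Finset.disjoint_left]
        intro i hi hi'
        simp only [hA, hB, pz, Finset.mem_sdiff, Finset.mem_filter] at hi hi'
        linarith [hi.1.2, hi'.2]
      rw [← Finset.card_union_of_disjoint h2, h1]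
      have h3 := Finset.card_sdiff_add_card_eq_card hFZ
      omega
    have hZF : (Z \ F).card = n + 1 := by
      have h3 := Finset.card_sdiff_add_card_eq_card hFZ
      omega
    refine hWAL J φ lam n k a B ha (by omega) (by omega) ?_ ?_ ?_ ?_
    · intro h
      have hne : Z.Nonempty := Finset.card_pos.mp (by omega)
      obtain ⟨i, hi⟩ := hne
      exact ((hC.supp i).mpr hi) (by rw [h]; rfl)
    · intro j hj
      exact ((Finset.mem_filter.mp hj).2).ne
    · intro f m _ _
      refine nf2 B ?_ f
      intro σ hσ hsub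
      obtain ⟨i, hi, hiσ⟩ := hS2 σ hσ
      have hiZ : i ∈ Z := (hC.supp i).mp hi.ne
      apply hiσ
      apply hsub
      by_cases hiF : i ∈ F
      · exact Finset.mem_union_left _ hiF
      · exact Finset.mem_union_right _
          (Finset.mem_filter.mpr ⟨Finset.mem_sdiff.mpr ⟨hiZ, hiF⟩, hi⟩)
    · intro l hl hl0 b hb
      obtain ⟨m, c'', hc0, hlm⟩ := (hCRU J d v hGP Z lam hC).2 l hl hl0
      rw [hlm, add_mul, map_add]
      have e1 : φ (th v m * (a * b)) = 0 := by
        refine hVan.2 m (n - 1) (a * b) hn1 ?_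
        have := ha.mul hb
        have e : k + (n - 1 - k) = n - 1 := by omega
        rwa [e] at this
      have e2 : φ (Lf c'' * (a * b)) = 0 := by
        unfold Lf
        rw [Finset.sum_mul, map_sum]
        refine Finset.sum_eq_zero fun j _ => ?_
        by_cases hj : j ∈ Z
        · rw [hc0 j hj]
          simp
        · have h1 := hX j hj b hb
          have h2 : C (c'' j) * X j * (a * b) = (c'' j) • (X j * (a * b)) := by
            rw [MvPolynomial.smul_eq_C_mul]; ring
          rw [h2, map_smul, h1, smul_zero]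
      rw [e1, e2, add_zero]
  · have e : n = 2 * k := le_antisymm hk' hk
    intro b hb
    have h1 := hab b (by
      have e2 : n - k = k := by omega
      rwa [e2] at hb)
    have e3 : n - 2 * k = 0 := by omega
    rw [e3, pow_zero, one_mul] at h1
    exact h1

end Pool.Agent.H62.HR.HLW
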