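import Pool.Agent.Helper59.HR.Spec

/-!
# HR: part RKH
-/

set_option autoImplicit false

open MvPolynomial Pool.Agent.Helper59.LP

namespace Pool.Agent.H62.HR.RKH

theorem main (hTRI : S_TRI) (hFIL : S_FIL) : S_RKH := by
  intro J _ _ d v ξ c F n k hG hF hV hk
  have h1 : ∀ k ∈ Finset.range (n + 1), hh v ξ c F k ≤ rk (fn v ξ c F) n k := fun k hk =>
    hTRI J d v ξ c F n k hG hF (by have := Finset.mem_range.mp hk; omega)
  have h2 := hFIL J d v ξ c F n hG hF hV
  have h3 : ∑ k ∈ Finset.range (n + 1), hh v ξ c F k =
      ((Fa v c).filter fun σ => F ⊆ σ).card := by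
    classical
    rw [Finset.card_eq_sum_card_fiberwise (t := Finset.range (n + 1))
      (f := fun σ => ((σ \ F).filter fun j => cf v ξ σ j < 0).card)]
    · apply Finset.sum_congr rfl
      intro k _
      unfold hh
      rw [Finset.filter_filter]
    · intro σ hσ
      have h5 := (Finset.mem_filter.mp (Finset.mem_coe.mp hσ))
      have h6 : σ.card = d := by
        have := h5.1
        unfold Fa at this
        exact (Finset.mem_filter.mp this).2.1
      rw [Finset.mem_coe, Finset.mem_range]
      have h7 := Finset.card_filter_le (σ \ F) (fun j => cf v ξ σ j < 0)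
      show ((σ \ F).filter fun j => cf v ξ σ j < 0).card < n + 1
      have h8 := Finset.card_sdiff_add_card_eq_card h5.2
      omega
  have h4 : ∑ k ∈ Finset.range (n + 1), hh v ξ c F k =
      ∑ k ∈ Finset.range (n + 1), rk (fn v ξ c F) n k :=
    le_antisymm (Finset.sum_le_sum h1) (h2.trans h3.ge)
  have h5 := (Finset.sum_eq_sum_iff_of_le h1).mp h4 k (Finset.mem_range.mpr (by omega))
  exact h5.symm

end Pool.Agent.H62.HR.RKH
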