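import Pool.Agent.Helper59.HR.Spec

/-!
# HR: part RKQ
-/

set_option autoImplicit false

open MvPolynomial Pool.Agent.Helper59.LP

namespace Pool.Agent.H62.HR.RKQ

theorem main : S_RKQ := by
  intro J _ _ φ L n k hL hk
  have h1 := LinearMap.finrank_range_add_finrank_ker (Qf φ L n k)
  have h2 := LinearMap.finrank_range_add_finrank_ker (Hf φ k (n - k))
  have kle : LinearMap.ker (Hf φ k (n - k)) ≤ LinearMap.ker (Qf φ L n k) := by
    intro a ha
    rw [LinearMap.mem_ker] at ha ⊢
    refine LinearMap.ext fun b => ?_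
    have hb : (L ^ (n - 2 * k) * b.1) ∈ homogeneousSubmodule J ℝ (n - k) := by
      rw [mem_homogeneousSubmodule]
      have h3 := (hL.pow (n - 2 * k)).mul ((mem_homogeneousSubmodule _ _).mp b.2)
      have e : 1 * (n - 2 * k) + k = n - k := by omega
      rwa [e] at h3
    have h4 : φ (a.1 * (L ^ (n - 2 * k) * b.1)) = 0 := LinearMap.congr_fun ha ⟨_, hb⟩
    show φ (L ^ (n - 2 * k) * (a.1 * b.1)) = 0
    rw [← h4]
    congr 1
    ring
  have e1 := Submodule.finrank_mono kle
  refine ⟨?_, fun hHL => ?_⟩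
  · show _ ≤ Module.finrank ℝ (LinearMap.range (Hf φ k (n - k)))
    omega
  · have kge : LinearMap.ker (Qf φ L n k) ≤ LinearMap.ker (Hf φ k (n - k)) := by
      intro a ha
      rw [LinearMap.mem_ker] at ha ⊢
      refine LinearMap.ext fun b => ?_
      exact hHL k hk a.1 ((mem_homogeneousSubmodule _ _).mp a.2)
        (fun b hb => LinearMap.congr_fun ha ⟨b, (mem_homogeneousSubmodule _ _).mpr hb⟩) b.1
        ((mem_homogeneousSubmodule _ _).mp b.2)
    have e2 := Submodule.finrank_mono kge
    show _ = Module.finrank ℝ (LinearMap.range (Hf φ k (n - k)))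
    omega

end Pool.Agent.H62.HR.RKQ
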